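import Pool.Agent.H37.CNW.Stmts

/-!
# Row XPW of board cnw
-/

set_option autoImplicit false

namespace Pool.CND

theorem xpw_ior (k H : Type) [Field k] [Group H] : Ior k H H = Ino k H := by
  have key : ∀ (S : Set H) (ω : H), ({ω' : H | ∃ h ∈ S, ω' = h • ω} : Set H).ncard = S.ncard := by
    intro S ω
    have h1 : ({ω' : H | ∃ h ∈ S, ω' = h • ω} : Set H) = (fun h => h * ω) '' S := by
      ext x
      constructor
      · rintro ⟨h, hh, rfl⟩
        exact ⟨h, hh, rfl⟩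
      · rintro ⟨h, hh, rfl⟩
        exact ⟨h, hh, rfl⟩
    rw [h1]
    exact Set.ncard_image_of_injective _ (mul_left_injective ω)
  ext r
  constructor
  · rintro ⟨L, iL, iA, ρ, t, hcov, P, hP, ω, rfl⟩
    exact ⟨L, iL, iA, ρ, t, hcov, P, hP, key _ ω⟩
  · rintro ⟨L, iL, iA, ρ, t, hcov, P, hP, rfl⟩
    exact ⟨L, iL, iA, ρ, t, hcov, P, hP, 1, (key _ 1).symm⟩

theorem xpw_thm (hXRL : S_XRL) (hXPU : S_XPU) (hXNH : S_XNH) : S_XPW := by
  intro p k H Ω _ _ _ _ _ _ _ hp hch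
  refine ⟨hXRL p k H Ω hp hch, fun n hn hNG hr => (hXPU p k H Ω n hp hch hn hNG hr).2, ?_⟩
  intro n hn
  constructor
  · intro h e he
    have h1 := hXRL p k H H hp hch e (by rw [xpw_ior]; exact he)
    exact h1.trans (Nat.mul_dvd_mul_left _ h)
  · intro h
    have h1 := (hXNH p k H n hp hch hn h).2
    exact (hXPU p k H H n hp hch hn h1 (by rw [xpw_ior]; exact h)).2

end Pool.CND
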