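import Pool.Agent.H37.CNW.Stmts
import Pool.Agent.H2.CNZ.CUN

/-!
# Row XUX of board cnw: the wreath Artin-Schreier extension of a cover is a cover
(after `H2/CNR/WUN.lean`)
-/

set_option autoImplicit false

namespace Pool.CND

open Finset

theorem xux_thm (hRSP : S_RSP) : S_XUX := by
  intro p k L L' H Ω _ _ _ _ _ _ _ _ _ _ ρ t r j y ρ' hp hchar hcov hreg hinj hY heq hρY hfix
  have : Fact p.Prime := ⟨hp⟩
  have htr : Transcendental k (j t) := by
    intro h
    exact hcov.trans ((isAlgebraic_algHom_iff j j.injective).1 h)
  have ht0 : t ≠ 0 := by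
    rintro rfl
    exact hcov.trans isAlgebraic_zero
  refine ⟨hinj, htr, ?_, ?_⟩
  · intro x
    have hadj : (IntermediateField.adjoin k {t}).map j = IntermediateField.adjoin k {j t} := by
      rw [IntermediateField.adjoin_map, Set.image_singleton]
    rw [← hadj, IntermediateField.mem_map]
    constructor
    · intro h
      obtain ⟨z, hz⟩ := hfix x (fun g _ => h g)
      refine ⟨z, ?_, hz.symm⟩
      rw [← hcov.fixed]
      intro g
      apply j.injective
      have h1 := heq (SemidirectProduct.inr g) z
      rw [← hz, h, hz] at h1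
      exact h1.symm
    · rintro ⟨z, hz, rfl⟩ g
      rw [heq, (hcov.fixed z).2 hz]
  · intro P' hP' g hg
    obtain ⟨e, P, he, hP⟩ := hRSP k L L' j P' t hcov.trans
    have he0 : (e : ℤ) ≠ 0 := by
      have : (1 : ℤ) ≤ e := by exact_mod_cast he
      omega
    have hePos : (0 : ℤ) < e := by omega
    have hPt : 0 ≤ P.ord t := by
      have h1 := hP t ht0
      by_contra h2
      have h3 : (e : ℤ) * P.ord t < 0 := mul_neg_of_pos_of_neg hePos (by omega)
      omega
    have hfixP : Fixes P (ρ g.right) := by
      intro x hx
      have h1 : ρ g.right x ≠ 0 := by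
        rw [Ne, map_eq_zero]
        exact hx
      have h2 := hP _ h1
      rw [← heq, hg (j x) (by rw [Ne, map_eq_zero]; exact hx), ← hP x hx] at h2
      exact mul_left_cancel₀ he0 h2
    have hg1 : g.right = 1 := hcov.unram P hPt _ hfixP
    have hw : ∀ ω : Ω, g.left ω = 1 := by
      intro ω
      have hr : P'.Ge (j (r ω)) 0 := by
        by_cases hr0 : r ω = 0
        · exact Or.inl (by rw [hr0, map_zero])
        · have hr1 : 0 ≤ P.ord (r ω) := by
            rcases hreg ω P hPt with h | h
            · exact absurd h hr0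
            · exact h
          exact Or.inr (by rw [← hP _ hr0]; positivity)
      have hYint : P'.Ge (y ω) 0 := cun_int P' hp.two_le hr (hY ω)
      have h1 : ρ' g (y ω) = y ω +
          algebraMap k L' (((Multiplicative.toAdd (g.left ω)).val : ℕ) : k) := by
        rw [hρY, hg1, one_smul, map_natCast]
      have h2 := cun_const P' hg hYint h1
      have h3 : p ∣ (Multiplicative.toAdd (g.left ω)).val := (CharP.cast_eq_zero_iff k p _).1 h2
      have h4 : (Multiplicative.toAdd (g.left ω)) = 0 :=
        (ZMod.val_eq_zero _).1 (Nat.eq_zero_of_dvd_of_lt h3 (ZMod.val_lt _))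
      exact toAdd_eq_zero.1 h4
    exact SemidirectProduct.ext (funext hw) hg1

end Pool.CND
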